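import Pool.Agent.Helper43.Gr.Goals
import Pool.Agent.Helper6.Gm.E2

/-!
Packet R3 (packing of a triangle by a graded sequence of multiplicities).
-/

set_option autoImplicit false

namespace Pool.Agent.Helper43.Gr.PkR3

open Finset
open Pool.Agent.Helper43.Gm (st mv nn SS Run Pri)
open Pool.Agent.Helper43.Gm.PkE2 (nn_congr nn_gt nn_eq sum_drop ch_pos sum_SS mono_le x_zero run_ext)
open Pool.Agent.Lead.Sh (Inj rows triD)
open Pool.Agent.Lead.Rw (Ind')

theorem sum_rows (R J : ℕ) (h : J ≤ R) :
    ∑ y ∈ range J, (R - y) + (R - J + 1).choose 2 = (R + 1).choose 2 := by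
  induction J with
  | zero => simp
  | succ J ih =>
    have h1 := ih (by omega)
    rw [Finset.sum_range_succ]
    have h2 : (R - J + 1).choose 2 = (R - (J + 1) + 1).choose 2 + (R - J) := by
      rw [show R - J = R - (J + 1) + 1 by omega]
      rw [Nat.choose_succ_succ' (R - (J + 1) + 1) 1, Nat.choose_one_right]
      ring
    omega

theorem choose_two_M (M : ℕ) : (2 * M).choose 2 = M * (2 * M - 1) := by
  rw [Nat.choose_two_right]
  rw [show 2 * M * (2 * M - 1) = 2 * (M * (2 * M - 1)) by ring]
  exact Nat.mul_div_cancel_left _ (by norm_num)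

theorem goalR3 (hB : Pool.Agent.Helper43.Gm.GoalB) (hC : Pool.Agent.Helper43.Gm.GoalC)
    (h0 : GoalR0) (h1 : GoalR1) : GoalR3 := by
  intro M R N ν hM hν1 hanti hSC hN0
  rcases lt_or_ge R (2 * M) with hJ0 | hJ0
  · have hle : (R + 1).choose 2 ≤ M * (2 * M - 1) := by
      rw [← choose_two_M M]
      exact Nat.choose_le_choose 2 (by omega)
    have hN0' : N = 0 := by
      by_contra h
      have h1 : (ν 0 + 1).choose 2 ≤ ∑ c ∈ range N, (ν c + 1).choose 2 :=
        Finset.single_le_sum (f := fun c => (ν c + 1).choose 2) (fun i _ => Nat.zero_le _)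
          (Finset.mem_range.2 (Nat.pos_of_ne_zero h))
      have := ch_pos hν1 0
      omega
    subst hN0'
    refine ⟨fun _ _ => 0, fun _ => 0, fun _ => 0, ?_, ?_, ?_⟩
    · intro c hc
      omega
    · intro y _
      simp
    · simp
  obtain ⟨J, hJd⟩ : ∃ J, J = R + 1 - 2 * M := ⟨_, rfl⟩
  have hJ : 1 ≤ J := by omega
  have hJR : J ≤ R := by omega
  obtain ⟨L, hL⟩ : ∃ L, L = max M (ν 0) := ⟨_, rfl⟩
  have hL1 : 1 ≤ L := by
    rw [hL]
    exact hM.trans (le_max_left _ _)
  obtain ⟨κ, x, hrun0, -, hex, -⟩ := h1 M R ν hM hν1 hanti hSC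
  rw [← hL] at hrun0
  have hrun : Run L J ν κ x :=
    ⟨hrun0.ν1, hrun0.νM, fun y hy => hrun0.mono y (by omega), fun y hy => hrun0.le y (by omega),
      fun y hy => hrun0.inc y (by omega)⟩
  have hSSe : ∀ y < J, SS κ x ν y = R - y := fun y hy => hex y (by omega) (Or.inr (by omega))
  have hN : ∑ c ∈ range N, (ν c + 1).choose 2 ≤ ∑ y ∈ range J, (R - y) := by
    have h2 := sum_rows R J hJR
    rw [show R - J + 1 = 2 * M by omega, choose_two_M M] at h2
    omega
  have hℓ : ∀ y, y + 1 < R → R - y ≤ R - (y + 1) + 1 := fun y hy => by omega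
  obtain ⟨K, hK⟩ : ∃ K, K = κ (J - 1) + (if 0 < x (J - 1) then 1 else 0) := ⟨_, rfl⟩
  obtain ⟨κ', hκ'⟩ : ∃ κ' : ℕ → ℕ, κ' = fun y => if y < J then κ y else K := ⟨_, rfl⟩
  obtain ⟨x', hx'⟩ : ∃ x' : ℕ → ℕ, x' = fun y => if y < J then x y else 0 := ⟨_, rfl⟩
  have hκ1 : ∀ y, y < J → κ' y = κ y := by
    intro y hy
    rw [hκ']
    exact if_pos hy
  have hκ2 : ∀ y, J ≤ y → κ' y = K := by
    intro y hy
    rw [hκ']
    exact if_neg (by omega)
  have hx1 : ∀ y, y < J → x' y = x y := by
    intro y hy
    rw [hx']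
    exact if_pos hy
  have hrunR : ∀ R', Run L R' ν κ' x' := by
    intro R'
    rw [hκ', hx']
    exact run_ext hrun hJ R' K hK
  obtain ⟨π, ε, hPri⟩ := hB L R ν κ' x' (hrunR R)
  have hcong : ∀ y < J, ∀ c, nn κ' x' ν c y = nn κ x ν c y := fun y hy c =>
    nn_congr ν (fun z hz => hκ1 z (by omega)) (fun z hz => hx1 z (by omega)) c
  -- the points `c ≥ K` give nothing before the row `J`
  have hbig : ∀ y < J, ∀ c, K ≤ c → nn κ' x' ν c y = 0 := by
    intro y hy c hc
    rw [hcong y hy c]
    have h1 := mono_le hrun (show y ≤ J - 1 by omega) (by omega)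
    have h2 : κ (J - 1) ≤ K := by omega
    rcases lt_or_ge (κ y) c with h3 | h3
    · exact nn_gt ν h3
    · have h4 : κ y = c := by omega
      rw [nn_eq ν h4]
      have h5 : ¬ 0 < x (J - 1) := by
        intro h
        rw [if_pos h] at hK
        omega
      exact x_zero hrun (show y ≤ J - 1 by omega) (by omega) (by omega) (by omega)
  -- the sum of the rows before `J`
  have hsumJ : ∀ y < J, ∑ c ∈ range K, nn κ' x' ν c y = R - y := by
    intro y hy
    rw [← hSSe y hy]
    refine le_antisymm ?_ ?_
    · rw [Finset.sum_congr rfl fun c _ => hcong y hy c]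
      exact sum_SS ν K y
    · unfold SS
      rw [Finset.sum_congr rfl fun c _ => (hcong y hy c).symm]
      calc ∑ c ∈ range (κ y + 1), nn κ' x' ν c y ≤ ∑ c ∈ range (K + (κ y + 1)), nn κ' x' ν c y :=
            Finset.sum_le_sum_of_subset (Finset.range_subset_range.2 (by omega))
        _ = ∑ c ∈ range K, nn κ' x' ν c y := by
            symm
            refine Finset.sum_subset (Finset.range_subset_range.2 (by omega)) ?_
            intro c _ hc
            rw [Finset.mem_range] at hc
            exact hbig y hy c (by omega)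
  have hcomp : ∀ c < K, ∑ y ∈ range (R + L), nn κ' x' ν c y = (ν c + 1).choose 2 := by
    intro c hc
    refine hC L (R + L) ν κ' x' (hrunR _) c J (by omega) ?_ (by omega)
    rw [hκ2 J le_rfl]
    exact hc
  have hcompJ : ∀ c < K, ∑ y ∈ range J, nn κ' x' ν c y ≤ (ν c + 1).choose 2 := by
    intro c hc
    rw [← hcomp c hc]
    exact Finset.sum_le_sum_of_subset (Finset.range_subset_range.2 (by omega))
  have htot : ∑ y ∈ range J, (R - y) = ∑ c ∈ range K, ∑ y ∈ range J, nn κ' x' ν c y := by
    rw [Finset.sum_comm]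
    exact Finset.sum_congr rfl fun y hy => (hsumJ y (Finset.mem_range.1 hy)).symm
  have htot2 : ∑ c ∈ range K, ∑ y ∈ range J, nn κ' x' ν c y ≤ ∑ c ∈ range K, (ν c + 1).choose 2 :=
    Finset.sum_le_sum fun c hc => hcompJ c (Finset.mem_range.1 hc)
  have hNK : N ≤ K := by
    by_contra h
    push Not at h
    have h1 : ∑ c ∈ range K, (ν c + 1).choose 2 < ∑ c ∈ range N, (ν c + 1).choose 2 := by
      refine Finset.sum_lt_sum_of_subset (Finset.range_subset_range.2 h.le) (i := K)
        (Finset.mem_range.2 h) (by simp) (ch_pos hν1 K) fun j _ _ => Nat.zero_le _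
    omega
  have hle : ∀ y < J, ∑ c ∈ range N, nn κ' x' ν c y ≤ R - y := by
    intro y hy
    rw [← hsumJ y hy]
    exact Finset.sum_le_sum_of_subset (Finset.range_subset_range.2 hNK)
  -- it remains: rows `≥ J`, and the rows `≥ R` get nothing
  have hfin : (∀ y, J ≤ y → y < R → ∑ c ∈ range N, nn κ' x' ν c y ≤ R - y) ∧
      (∀ c < N, ∑ y ∈ range R, nn κ' x' ν c y = (ν c + 1).choose 2) := by
    rcases le_or_gt N (κ (J - 1)) with hc1 | hc1
    · have hNκ : ∀ y, J - 1 ≤ y → N ≤ κ' y := by
        intro y hy
        rcases lt_or_ge y J with h | h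
        · have : y = J - 1 := by omega
          rw [hκ1 y h, this]
          exact hc1
        · rw [hκ2 y h]
          omega
      have hmono : ∀ y, κ' y ≤ κ' (y + 1) := fun y => (hrunR (y + 2)).mono y (by omega)
      have hs : ∀ t, J - 1 + t < R →
          ∑ c ∈ range N, nn κ' x' ν c (J - 1 + t) ≤ R - (J - 1 + t) := by
        intro t
        induction t with
        | zero =>
          intro _
          exact hle (J - 1) (by omega)
        | succ t ih =>
          intro ht
          have h1 := ih (by omega)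
          have h2 := sum_drop (x := x') ν (hNκ (J - 1 + t) (by omega)) (hmono (J - 1 + t))
          rw [show J - 1 + (t + 1) = J - 1 + t + 1 by ring]
          omega
      refine ⟨?_, ?_⟩
      · intro y hy hyR
        have := hs (y - (J - 1)) (by omega)
        rwa [show J - 1 + (y - (J - 1)) = y by omega] at this
      · intro c hc
        have hz : ∀ t, ∑ c ∈ range N, nn κ' x' ν c (R + t) = 0 := by
          intro t
          induction t with
          | zero =>
            have h2 := hs (R - 1 - (J - 1)) (by omega)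
            rw [show J - 1 + (R - 1 - (J - 1)) = R - 1 by omega] at h2
            have h3 := sum_drop (x := x') ν (hNκ (R - 1) (by omega)) (hmono (R - 1))
            rw [show R - 1 + 1 = R by omega] at h3
            rw [add_zero]
            omega
          | succ t ih =>
            have h3 := sum_drop (x := x') ν (hNκ (R + t) (by omega)) (hmono (R + t))
            rw [show R + (t + 1) = R + t + 1 by ring]
            omega
        rw [← hcomp c (by omega)]
        refine Finset.sum_subset (Finset.range_subset_range.2 (by omega)) ?_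
        intro y _ hy
        rw [Finset.mem_range] at hy
        have h2 := hz (y - R)
        rw [show R + (y - R) = y by omega, Finset.sum_eq_zero_iff] at h2
        exact h2 c (Finset.mem_range.2 hc)
    · have hNe : N = K := by
        have : K ≤ κ (J - 1) + 1 := by
          rw [hK]
          split_ifs <;> omega
        omega
      subst hNe
      have heq : ∑ c ∈ range N, ∑ y ∈ range J, nn κ' x' ν c y =
          ∑ c ∈ range N, (ν c + 1).choose 2 := le_antisymm htot2 (by rw [← htot]; exact hN)
      have heq2 : ∀ c ∈ range N, ∑ y ∈ range J, nn κ' x' ν c y = (ν c + 1).choose 2 :=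
        (Finset.sum_eq_sum_iff_of_le fun c hc => hcompJ c (Finset.mem_range.1 hc)).1 heq
      have hz : ∀ c < N, ∀ y, J ≤ y → y < R + L → nn κ' x' ν c y = 0 := by
        intro c hc y hy hyR
        have h1 := hcomp c hc
        rw [← heq2 c (Finset.mem_range.2 hc)] at h1
        have h2 : ∑ y ∈ range J, nn κ' x' ν c y + ∑ y ∈ Ico J (R + L), nn κ' x' ν c y =
            ∑ y ∈ range (R + L), nn κ' x' ν c y := Finset.sum_range_add_sum_Ico _ (by omega)
        have h3 : ∑ y ∈ Ico J (R + L), nn κ' x' ν c y = 0 := by omega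
        rw [Finset.sum_eq_zero_iff] at h3
        exact h3 y (Finset.mem_Ico.2 ⟨hy, hyR⟩)
      refine ⟨?_, ?_⟩
      · intro y hy hyR
        rw [Finset.sum_eq_zero fun c hc => hz c (Finset.mem_range.1 hc) y hy (by omega)]
        exact Nat.zero_le _
      · intro c hc
        rw [← heq2 c (Finset.mem_range.2 hc)]
        symm
        refine Finset.sum_subset (Finset.range_subset_range.2 hJR) ?_
        intro y hy hyJ
        rw [Finset.mem_range] at hy hyJ
        exact hz c hc y (by omega) (by omega)
  refine ⟨nn κ' x' ν, π, ε, hPri N, ?_, ?_⟩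
  · intro y hy
    rcases lt_or_ge y J with h | h
    · exact hle y h
    · exact hfin.1 y h hy
  · rw [Finset.sum_comm]
    exact Finset.sum_congr rfl fun c hc => hfin.2 c (Finset.mem_range.1 hc)

end Pool.Agent.Helper43.Gr.PkR3
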